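import Pool.Agent.Helper76.TC2.Goals

set_option autoImplicit false

namespace Pool.Agent.Helper51.TC2.WD

open Pool.Agent.Helper76.TC2 Pool.Agent.Helper76.TC

theorem t : S_WD := by
  intro m ε a b x y hε h η hη
  obtain ⟨k, z, h0, hk, hs, ha, hb⟩ := h η hη
  refine ⟨k, z, h0, hk, hs, ?_⟩
  have e : ∑ i ∈ Finset.range k, dd m ε (z i) (z (i + 1)) =
      ε * ∑ i ∈ Finset.range k, ‖z i - z (i + 1)‖ +
      ∑ i ∈ Finset.range k, |uu m (z i) - uu m (z (i + 1))| := by
    rw [Finset.mul_sum, ← Finset.sum_add_distrib]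
    rfl
  rw [e]
  exact add_le_add (mul_le_mul_of_nonneg_left ha hε) hb

end Pool.Agent.Helper51.TC2.WD
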